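import Pool.Agent.Y720.WL.Np

/-!
# The closure of the rational points of conic bundles with quartic coefficients (helper720)

`K` is a field of characteristic zero, for example a number field, and `X` is the conic bundle
`w² = A(z) y² + B(z) y + C(z)` over the affine space of the variables `z = (z₁, …, z_m)`, with
polynomials `A, B, C` of degree at most `4` in each `z_j`. So `X` is rationally connected. The
simplest cases are the conic bundles over the line with eight degenerate fibres and quartic
`A, B, C`.

We show that there is a divisor `N(z) = 0` such that, for every finite set of real and `p`-adic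
places (of degree one, over different `p`, at least one of them `p`-adic), the closure of `X(K)` in
the product of the `X(K_v)` is, outside this divisor, the inverse image of an open subset of the
product of the `K_v^m`. In particular it is open there, and it is a union of fibres, as for the
Brauer-Manin set.

Idea of the proof. Let `T = (T_v)` be a limit of rational points. The conic of its fibre has weak
approximation with respect to the rational points close to it, so we can move `T` in the
fibre. Through the points of the fibre there are the curves of genus one `w² = quartic` in the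
direction of `z_j`. Their Jacobians are the resolvent cubics, and the difference of the two points
over the given one is a rational point. When `T` approaches the branch curve in the algebraic
closure, it has a pole there; so for all but countably many local points of the fibre, it has
infinite order. Its multiples accumulate at the origin, simultaneously at all the places. A given
multiple is close to the origin also for the nearby rational curves of genus one, where one does
not know that they have points of infinite order at all the places; but a point which is close to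
the origin at a `p`-adic place is never a torsion point. So the multiples of this multiple fill
neighbourhoods of the origin with a size which does not depend on the curve, simultaneously at all
the places. So the rational points in the direction of `z_j` fill the local curves uniformly. The
moves in the `m + 1` directions fill a neighbourhood of `T`.
-/

set_option autoImplicit false

namespace Pool.Agent.Results.MP_12adaf_nt.ConicBundleClosure

open MvPolynomial Pool.Agent.Y720.MZ

universe u v w

/-- The point `(z, y, w)` lies on the conic bundle `w² = A(z) y² + B(z) y + C(z)`. -/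
def OnBundle {F : Type v} [Field F] {m : ℕ} (A B C : MvPolynomial (Fin m) F)
    (P : (Fin m → F) × F × F) : Prop :=
  P.2.2 ^ 2 = eval P.1 A * P.2.1 ^ 2 + eval P.1 B * P.2.1 + eval P.1 C

/-- The image of a point under an embedding of fields. -/
def image {K : Type v} {F : Type w} [Field K] [Field F] (φ : K →+* F) {m : ℕ}
    (P : (Fin m → K) × K × K) : (Fin m → F) × F × F :=
  (fun j => φ (P.1 j), φ P.2.1, φ P.2.2)

/-- The polynomial `A(z + t e_j) y² + B(z + t e_j) y + C(z + t e_j)` in `t`. -/
noncomputable def line {K : Type v} [Field K] {m : ℕ} (A B C : MvPolynomial (Fin m) K)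
    (z : Fin m → K) (y : K) (j : Fin m) : Polynomial K :=
  let t : Fin m → Polynomial K := fun i =>
    Polynomial.C (z i) + Polynomial.C (Pi.single (M := fun _ => K) j 1 i) * Polynomial.X
  aeval t A * Polynomial.C y ^ 2 + aeval t B * Polynomial.C y + aeval t C

section aux

lemma line_eq {K : Type v} [Field K] [CharZero K] {m : ℕ} (A B C : MvPolynomial (Fin m) K)
    (z : Fin m → K) (y : K) (j : Fin m) :
    line A B C z y j = rst (cb A B C) (po y z) (Pi.single (some j) 1) := by
  rw [rst_cb_some]
  rfl

lemma onBundle_iff {F : Type v} [Field F] [CharZero F] {m : ℕ} (A B C : MvPolynomial (Fin m) F)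
    (P : (Fin m → F) × F × F) :
    OnBundle A B C P ↔ onX (cb A B C) (po P.2.1 P.1) P.2.2 := by
  rw [onX, eval_cb]
  rfl

variable {K : Type u} [Field K] [CharZero K] {m : ℕ} {A B C : MvPolynomial (Fin m) K}

lemma cls_iff {V : Type} [Finite V] {L : V → Type} [∀ v, NontriviallyNormedField (L v)]
    (s : ∀ v, K →+* L v) (x : ∀ v, Option (Fin m) → L v) (y : ∀ v, L v) :
    Cls s (cb A B C) x y ↔ ∀ η : ℝ, 0 < η → ∃ P : (Fin m → K) × K × K, OnBundle A B C P ∧
      ∀ v, ‖s v P.2.1 - x v none‖ < η ∧ (∀ j, ‖s v (P.1 j) - x v (some j)‖ < η) ∧
        ‖s v P.2.2 - y v‖ < η := by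
  constructor
  · intro h η hη
    obtain ⟨z, w, h1, h2⟩ := h η hη
    refine ⟨(fun i => z (some i), z none, w), ?_, fun v => ⟨(h2 v).1 none,
      fun j => (h2 v).1 (some j), (h2 v).2⟩⟩
    rw [onBundle_iff]
    rwa [po_eta]
  · intro h η hη
    obtain ⟨P, h1, h2⟩ := h η hη
    refine ⟨po P.2.1 P.1, P.2.2, (onBundle_iff A B C P).1 h1, fun v => ⟨fun a => ?_, (h2 v).2.2⟩⟩
    rcases a with _ | j
    · exact (h2 v).1
    · exact (h2 v).2.1 j

omit [CharZero K] in
lemma dist_image {F : Type} [NormedField F] (φ : K →+* F) (P : (Fin m → K) × K × K)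
    (T : (Fin m → F) × F × F) {η : ℝ} (hη : 0 < η) : dist T (image φ P) < η ↔
      ‖φ P.2.1 - T.2.1‖ < η ∧ (∀ j, ‖φ (P.1 j) - T.1 j‖ < η) ∧ ‖φ P.2.2 - T.2.2‖ < η := by
  rw [dist_comm, Prod.dist_eq, Prod.dist_eq, max_lt_iff, max_lt_iff, dist_pi_lt_iff hη]
  simp only [dist_eq_norm, image]
  tauto

end aux

/-- **The closure of the rational points of a conic bundle with quartic coefficients.** -/
theorem result :
    ∀ (K : Type u) [Field K] [CharZero K] (m : ℕ) (A B C : MvPolynomial (Fin m) K),
      -- the degrees in each variable are at most four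
      (∀ j, A.degreeOf j ≤ 4 ∧ B.degreeOf j ≤ 4 ∧ C.degreeOf j ≤ 4) →
      -- the generic fibre is a smooth conic
      A ≠ 0 → B ^ 2 - 4 * A * C ≠ 0 →
      -- for each `j`, either `A, B, C` have degree at most two in `z_j`, or `B / A` and `C / A` do
      -- not both have derivative zero with respect to `z_j` and some curve in the direction of
      -- `z_j` is smooth of genus one
      (∀ j, (A.degreeOf j ≤ 2 ∧ B.degreeOf j ≤ 2 ∧ C.degreeOf j ≤ 2) ∨
        ((A * pderiv j B ≠ B * pderiv j A ∨ A * pderiv j C ≠ C * pderiv j A) ∧
          ∃ (z : Fin m → K) (y : K), (line A B C z y j).Separable ∧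
            3 ≤ (line A B C z y j).natDegree)) →
      -- then there is a divisor of the base
      ∃ N : MvPolynomial (Fin m) K, N ≠ 0 ∧
        -- such that for all finite sets of places
        ∀ (ι : Type) [Finite ι] [Nonempty ι] (p : ι → ℕ) [∀ i, Fact (p i).Prime],
          Function.Injective p → ∀ σ : ∀ i, K →+* ℚ_[p i],
            -- outside this divisor the closure of the rational points in the product of the
            -- `X(ℚ_[p i])` is the inverse image of an open set of the base
            (∃ U : Set (∀ i, Fin m → ℚ_[p i]), IsOpen U ∧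
              ∀ T : ∀ i, (Fin m → ℚ_[p i]) × ℚ_[p i] × ℚ_[p i],
                (∀ i, OnBundle (map (σ i) A) (map (σ i) B) (map (σ i) C) (T i) ∧
                  eval (T i).1 (map (σ i) N) ≠ 0) →
                (T ∈ closure {T | ∃ P, OnBundle A B C P ∧ T = fun i => image (σ i) P} ↔
                  (fun i => (T i).1) ∈ U)) ∧
            -- and the same with a real place
            ∀ τ : K →+* ℝ, ∃ U : Set ((Fin m → ℝ) × ∀ i, Fin m → ℚ_[p i]), IsOpen U ∧
              ∀ T : ((Fin m → ℝ) × ℝ × ℝ) × ∀ i, (Fin m → ℚ_[p i]) × ℚ_[p i] × ℚ_[p i],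
                OnBundle (map τ A) (map τ B) (map τ C) T.1 → eval T.1.1 (map τ N) ≠ 0 →
                (∀ i, OnBundle (map (σ i) A) (map (σ i) B) (map (σ i) C) (T.2 i) ∧
                  eval (T.2 i).1 (map (σ i) N) ≠ 0) →
                (T ∈ closure {T | ∃ P, OnBundle A B C P ∧
                    T = (image τ P, fun i => image (σ i) P)} ↔
                  (T.1.1, fun i => (T.2 i).1) ∈ U) := by
  intro K _ _ m A B C hd hA hD hG
  refine ⟨NN A B C, NN_ne hd hA hD fun j => ?_, ?_⟩
  · rcases hG j with h | ⟨h1, z, y, h2, h3⟩
    · exact Or.inl h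
    · rw [line_eq] at h2 h3
      exact Or.inr ⟨h1, z, y, h2, h3⟩
  intro ι _ _ p _ hinj σ
  have : Fintype ι := Fintype.ofFinite ι
  refine ⟨?_, fun τ => ?_⟩
  · obtain ⟨U, hU, h⟩ := rc_main (dn_p hinj σ) (hw_p hinj σ) hd
    refine ⟨U, hU, fun T hT => ?_⟩
    have h1 := h (fun i => po (T i).2.1 (T i).1) (fun i => (T i).2.2) (fun i => by
      rw [map_cb]; exact (onBundle_iff _ _ _ (T i)).1 (hT i).1) (fun i => (hT i).2)
    rw [cls_iff] at h1
    simp only [po_none, po_some] at h1
    rw [← h1, Metric.mem_closure_iff]
    refine forall_congr' fun η => ?_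
    rw [gt_iff_lt]
    refine imp_congr_right fun hη => ?_
    constructor
    · rintro ⟨_, ⟨P, hP, rfl⟩, h2⟩
      rw [dist_pi_lt_iff hη] at h2
      exact ⟨P, hP, fun i => (dist_image (σ i) P (T i) hη).1 (h2 i)⟩
    · rintro ⟨P, hP, h2⟩
      refine ⟨_, ⟨P, hP, rfl⟩, ?_⟩
      rw [dist_pi_lt_iff hη]
      exact fun i => (dist_image (σ i) P (T i) hη).2 (h2 i)
  · obtain ⟨U, hU, h⟩ := rc_main (dn_all hinj σ τ) (hw_all hinj σ τ) hd
    let G : (Fin m → ℝ) × (∀ i, Fin m → ℚ_[p i]) → ∀ v : Option ι, Fin m → Lv p v := fun ζ v =>
      match v with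
      | none => ζ.1
      | some i => ζ.2 i
    have hGc : Continuous G := by
      refine continuous_pi fun v => ?_
      rcases v with _ | i
      · exact continuous_fst
      · exact (continuous_apply i).comp continuous_snd
    refine ⟨G ⁻¹' U, hU.preimage hGc, fun T hT1 hT2 hT3 => ?_⟩
    let x : ∀ v : Option ι, Option (Fin m) → Lv p v := fun v =>
      match v with
      | none => po T.1.2.1 T.1.1
      | some i => po (T.2 i).2.1 (T.2 i).1
    let y : ∀ v : Option ι, Lv p v := fun v =>
      match v with
      | none => T.1.2.2
      | some i => (T.2 i).2.2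
    have h1 := h x y (fun v => by
      rw [map_cb]
      rcases v with _ | i
      · exact (onBundle_iff _ _ _ T.1).1 hT1
      · exact (onBundle_iff _ _ _ (T.2 i)).1 (hT3 i).1) (fun v => by
      rcases v with _ | i
      · exact hT2
      · exact (hT3 i).2)
    have e1 : (fun v i => x v (some i)) = G (T.1.1, fun i => (T.2 i).1) := by
      funext v
      rcases v with _ | i
      · rfl
      · rfl
    rw [e1] at h1
    rw [Set.mem_preimage, ← h1, cls_iff, Metric.mem_closure_iff]
    refine forall_congr' fun η => ?_
    rw [gt_iff_lt]
    refine imp_congr_right fun hη => ?_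
    constructor
    · rintro ⟨_, ⟨P, hP, rfl⟩, h2⟩
      rw [Prod.dist_eq, max_lt_iff, dist_pi_lt_iff hη] at h2
      refine ⟨P, hP, fun v => ?_⟩
      rcases v with _ | i
      · exact (dist_image τ P T.1 hη).1 h2.1
      · exact (dist_image (σ i) P (T.2 i) hη).1 (h2.2 i)
    · rintro ⟨P, hP, h2⟩
      refine ⟨_, ⟨P, hP, rfl⟩, ?_⟩
      rw [Prod.dist_eq, max_lt_iff, dist_pi_lt_iff hη]
      exact ⟨(dist_image τ P T.1 hη).2 (h2 none),
        fun i => (dist_image (σ i) P (T.2 i) hη).2 (h2 (some i))⟩

end Pool.Agent.Results.MP_12adaf_nt.ConicBundleClosure
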