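import Pool.Agent.Y718.CL.Bad
import Pool.Agent.Y718.CL.Sep
import Pool.Agent.Y151.CL.Fnt
import Pool.Agent.Y165.CL.Ufd
import Pool.Agent.Y362.CL.Smt
import Pool.Agent.Y447.CL.Small
import Pool.Agent.Y944.CL.Ex

/-!
# The closure of the rational points of Fano double covers branched along quartics is open

`K` is a field of characteristic zero, for example a number field, and `X` is the double cover
`w² = F(x₀, …, x_n)` of `ℙⁿ`, `n ≥ 2`, branched along a smooth quartic hypersurface: a del Pezzo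
surface of degree `2` for `n = 2`, a Fano variety for `n ≥ 3` (a quartic double solid for `n = 3`).
We consider finite nonempty sets of `p`-adic places of degree one (embeddings of `K` into `ℚ_p`)
over different primes `p`, with or without a real place; for `K = ℚ` these are all the finite sets
of places which contain a finite place.

**Theorem.** For every embedding of `K` into `ℚ_p` there is a finite set of points of `ℙⁿ(ℚ_p)`,
such that for every such set of places the closure of `X(K)` in the product of the `X(K_v)` is a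
neighbourhood of each of its points `T = (T_v)` which satisfies the following conditions: no `T_v`
lies on the branch divisor, and for the `p`-adic places `v` the image of `T_v` in `ℙⁿ(ℚ_p)` does not
belong to the finite set.

(In the formal statement we work with the coordinates `(x₀, …, x_n, w)`, that is with the cone
over `X`.)
-/

set_option autoImplicit false

namespace Pool.Agent.Results.MP_12adaf_nt.OpenClosure

open MvPolynomial Pool.Agent.Y720.MZ

/-- The point `(x, w)` lies on the double cover `w² = f(x)`. -/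
def OnCover {F : Type} [Field F] {m : ℕ} (f : MvPolynomial (Fin m) F) (P : (Fin m → F) × F) :
    Prop :=
  P.2 ^ 2 = eval P.1 f

/-- The image of a point under an embedding of fields. -/
def image {K F : Type} [Field K] [Field F] (φ : K →+* F) {m : ℕ}
    (P : (Fin m → K) × K) : (Fin m → F) × F :=
  (fun j => φ (P.1 j), φ P.2)

/-- The closure of the `K`-points in the product of the sets of the `ℚ_[p i]`-points. -/
def Closure {K : Type} [Field K] {m : ℕ} (f : MvPolynomial (Fin m) K) {ι : Type} {p : ι → ℕ}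
    [∀ i, Fact (p i).Prime] (σ : ∀ i, K →+* ℚ_[p i]) : Set (∀ i, (Fin m → ℚ_[p i]) × ℚ_[p i]) :=
  closure {S | ∃ P, OnCover f P ∧ S = fun i => image (σ i) P}

/-- The closure of the `K`-points in the product of the set of the real points and of the sets of
the `ℚ_[p i]`-points. -/
def ClosureReal {K : Type} [Field K] {m : ℕ} (f : MvPolynomial (Fin m) K) {ι : Type} {p : ι → ℕ}
    [∀ i, Fact (p i).Prime] (σ : ∀ i, K →+* ℚ_[p i]) (τ : K →+* ℝ) :
    Set (((Fin m → ℝ) × ℝ) × ∀ i, (Fin m → ℚ_[p i]) × ℚ_[p i]) :=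
  closure {S | ∃ P, OnCover f P ∧ S = (image τ P, fun i => image (σ i) P)}

section aux

variable {K : Type} [Field K] [CharZero K] {m : ℕ} {f : MvPolynomial (Fin m) K}

omit [CharZero K] in
lemma dist_image {F : Type} [NormedField F] (φ : K →+* F) (P : (Fin m → K) × K)
    (T : (Fin m → F) × F) {η : ℝ} (hη : 0 < η) : dist T (image φ P) < η ↔
      (∀ j, ‖φ (P.1 j) - T.1 j‖ < η) ∧ ‖φ P.2 - T.2‖ < η := by
  rw [dist_comm, Prod.dist_eq, max_lt_iff, dist_pi_lt_iff hη]
  simp only [dist_eq_norm, image]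

variable {ι : Type} [Finite ι] {p : ι → ℕ} [hp : ∀ i, Fact (p i).Prime]

omit [CharZero K] in
lemma fill_p (σ : ∀ i, K →+* ℚ_[p i]) {T : ∀ i, (Fin m → ℚ_[p i]) × ℚ_[p i]}
    (hcl : T ∈ Closure f σ) (hI : IntL σ f (fun i => (T i).1) (fun i => (T i).2)) :
    ∃ U ∈ nhds T, ∀ S ∈ U, (∀ i, OnCover (map (σ i) f) (S i)) → S ∈ Closure f σ := by
  have : Fintype ι := Fintype.ofFinite ι
  obtain ⟨ε, hε, hint⟩ := hI
  obtain ⟨_, ⟨P, hP, rfl⟩, h2⟩ := Metric.mem_closure_iff.1 hcl ε hε
  rw [dist_pi_lt_iff hε] at h2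
  refine ⟨Metric.ball T ε, Metric.ball_mem_nhds T hε, fun S hS hSX => ?_⟩
  rw [Metric.mem_ball, dist_pi_lt_iff hε] at hS
  rw [Closure, Metric.mem_closure_iff]
  intro η hη
  obtain ⟨z, w, k1, k2⟩ := hint P.1 P.2 hP (fun i => (dist_image (σ i) P (T i) hε).1 (h2 i))
    (fun i => (S i).1) (fun i => (S i).2) hSX (fun i => by
      have h3 := hS i
      rw [Prod.dist_eq, max_lt_iff, dist_pi_lt_iff hε] at h3
      simp only [dist_eq_norm] at h3
      exact h3) η hη
  refine ⟨_, ⟨(z, w), k1, rfl⟩, ?_⟩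
  rw [dist_pi_lt_iff hη]
  exact fun i => (dist_image (σ i) (z, w) (S i) hη).2 (k2 i)

omit [CharZero K] in
lemma fill_r (σ : ∀ i, K →+* ℚ_[p i]) (τ : K →+* ℝ)
    {T : ((Fin m → ℝ) × ℝ) × ∀ i, (Fin m → ℚ_[p i]) × ℚ_[p i]}
    (hcl : T ∈ ClosureReal f σ τ) {x : ∀ v : Option ι, Fin m → Lv p v} {y : ∀ v : Option ι, Lv p v}
    (hx0 : x none = T.1.1) (hy0 : y none = T.1.2) (hx : ∀ i, x (some i) = (T.2 i).1)
    (hy : ∀ i, y (some i) = (T.2 i).2)
    (hI : IntL (sv σ τ) f x y) :
    ∃ U ∈ nhds T, ∀ S ∈ U, OnCover (map τ f) S.1 → (∀ i, OnCover (map (σ i) f) (S.2 i)) →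
      S ∈ ClosureReal f σ τ := by
  have : Fintype ι := Fintype.ofFinite ι
  obtain ⟨ε, hε, hint⟩ := hI
  obtain ⟨_, ⟨P, hP, rfl⟩, h2⟩ := Metric.mem_closure_iff.1 hcl ε hε
  rw [Prod.dist_eq, max_lt_iff, dist_pi_lt_iff hε] at h2
  refine ⟨Metric.ball T ε, Metric.ball_mem_nhds T hε, fun S hS hSr hSX => ?_⟩
  rw [Metric.mem_ball, Prod.dist_eq, max_lt_iff, dist_pi_lt_iff hε] at hS
  rw [ClosureReal, Metric.mem_closure_iff]
  intro η hη
  let x' : ∀ v : Option ι, Fin m → Lv p v := fun v =>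
    match v with
    | none => S.1.1
    | some i => (S.2 i).1
  let y' : ∀ v : Option ι, Lv p v := fun v =>
    match v with
    | none => S.1.2
    | some i => (S.2 i).2
  obtain ⟨z, w, k1, k2⟩ := hint P.1 P.2 hP
    (by
      rintro (_ | i)
      · rw [hx0, hy0]
        exact (dist_image τ P T.1 hε).1 h2.1
      · rw [hx, hy]
        exact (dist_image (σ i) P (T.2 i) hε).1 (h2.2 i))
    x' y'
    (by
      rintro (_ | i)
      · exact hSr
      · exact hSX i)
    (by
      rintro (_ | i)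
      · have h3 := hS.1
        rw [Prod.dist_eq, max_lt_iff, dist_pi_lt_iff hε] at h3
        simp only [dist_eq_norm] at h3
        rw [hx0, hy0]
        exact h3
      · have h3 := hS.2 i
        rw [Prod.dist_eq, max_lt_iff, dist_pi_lt_iff hε] at h3
        simp only [dist_eq_norm] at h3
        rw [hx, hy]
        exact h3) η hη
  refine ⟨_, ⟨(z, w), k1, rfl⟩, ?_⟩
  rw [Prod.dist_eq, max_lt_iff, dist_pi_lt_iff hη]
  exact ⟨(dist_image τ (z, w) S.1 hη).2 (k2 none),
    fun i => (dist_image (σ i) (z, w) (S.2 i) hη).2 (k2 (some i))⟩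

end aux


section closed

variable {K : Type} [Field K] {m : ℕ} {f : MvPolynomial (Fin m) K} {ι : Type} {p : ι → ℕ}
  [∀ i, Fact (p i).Prime]

lemma onCover_image {F : Type} [Field F] (φ : K →+* F) {P : (Fin m → K) × K} (h : OnCover f P) :
    OnCover (map φ f) (image φ P) := by
  have k1 : eval (image φ P).1 (map φ f) = φ (eval P.1 f) := by
    rw [eval_map, image]
    exact (eval₂_comp_left φ (RingHom.id K) P.1 f).symm ▸ rfl
  unfold OnCover at *
  rw [k1, ← h, map_pow]
  rfl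

lemma isClosed_onCover {F : Type} [NormedField F] (g : MvPolynomial (Fin m) F) :
    IsClosed {P : (Fin m → F) × F | OnCover g P} :=
  isClosed_eq (by fun_prop) ((MvPolynomial.continuous_eval g).comp continuous_fst)

lemma on_of_closure {σ : ∀ i, K →+* ℚ_[p i]} {T : ∀ i, (Fin m → ℚ_[p i]) × ℚ_[p i]}
    (hT : T ∈ Closure f σ) (i : ι) : OnCover (map (σ i) f) (T i) := by
  have h1 : IsClosed {T : ∀ i, (Fin m → ℚ_[p i]) × ℚ_[p i] | OnCover (map (σ i) f) (T i)} :=
    (isClosed_onCover (map (σ i) f)).preimage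
      (f := fun T : ∀ i, (Fin m → ℚ_[p i]) × ℚ_[p i] => T i) (continuous_apply i)
  refine closure_minimal ?_ h1 hT
  rintro _ ⟨P, hP, rfl⟩
  exact onCover_image (σ i) hP

lemma on_of_closureR {σ : ∀ i, K →+* ℚ_[p i]} {τ : K →+* ℝ}
    {T : ((Fin m → ℝ) × ℝ) × ∀ i, (Fin m → ℚ_[p i]) × ℚ_[p i]}
    (hT : T ∈ ClosureReal f σ τ) : OnCover (map τ f) T.1 ∧ ∀ i, OnCover (map (σ i) f) (T.2 i) := by
  constructor
  · have h1 : IsClosed {T : ((Fin m → ℝ) × ℝ) × ∀ i, (Fin m → ℚ_[p i]) × ℚ_[p i] |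
        OnCover (map τ f) T.1} := (isClosed_onCover (map τ f)).preimage continuous_fst
    refine closure_minimal ?_ h1 hT
    rintro _ ⟨P, hP, rfl⟩
    exact onCover_image τ hP
  · intro i
    have h1 : IsClosed {T : ((Fin m → ℝ) × ℝ) × ∀ i, (Fin m → ℚ_[p i]) × ℚ_[p i] |
        OnCover (map (σ i) f) (T.2 i)} :=
      (isClosed_onCover (map (σ i) f)).preimage
        (f := fun T : ((Fin m → ℝ) × ℝ) × ∀ i, (Fin m → ℚ_[p i]) × ℚ_[p i] => T.2 i)
        ((continuous_apply i).comp continuous_snd)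
    refine closure_minimal ?_ h1 hT
    rintro _ ⟨P, hP, rfl⟩
    exact onCover_image (σ i) hP

end closed

open Pool.Agent.Y718.CL in
/-- **The closure of the rational points is open.** -/
theorem result :
    ∀ (K : Type) [Field K] [CharZero K] (n : ℕ), 2 ≤ n → ∀ F : MvPolynomial (Fin (n + 1)) K,
      -- a smooth quartic hypersurface
      F.IsHomogeneous 4 →
      (∀ y : Fin (n + 1) → AlgebraicClosure K, (∀ i, aeval y (pderiv i F) = 0) → y = 0) →
      -- finite sets of points of the projective spaces over the `ℚ_p`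
      ∃ E : ∀ (p : ℕ) [Fact p.Prime], (K →+* ℚ_[p]) → Set (Fin (n + 1) → ℚ_[p]),
        (∀ (p : ℕ) [Fact p.Prime] (σ : K →+* ℚ_[p]), (E p σ).Finite) ∧
        -- finite sets of `p`-adic places
        ∀ (ι : Type) [Finite ι] [Nonempty ι] (p : ι → ℕ) [∀ i, Fact (p i).Prime],
          Function.Injective p → ∀ σ : ∀ i, K →+* ℚ_[p i],
            (∀ T ∈ Closure F σ,
              (∀ i, (T i).2 ≠ 0 ∧ ∀ e ∈ E (p i) (σ i), ∀ c : ℚ_[p i], (T i).1 ≠ c • e) →
              ∃ U ∈ nhds T, ∀ S ∈ U, (∀ i, OnCover (map (σ i) F) (S i)) → S ∈ Closure F σ) ∧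
            -- with a real place
            ∀ (τ : K →+* ℝ), ∀ T ∈ ClosureReal F σ τ, T.1.2 ≠ 0 →
              (∀ i, (T.2 i).2 ≠ 0 ∧ ∀ e ∈ E (p i) (σ i), ∀ c : ℚ_[p i], (T.2 i).1 ≠ c • e) →
              ∃ U ∈ nhds T, ∀ S ∈ U, OnCover (map τ F) S.1 →
                (∀ i, OnCover (map (σ i) F) (S.2 i)) → S ∈ ClosureReal F σ τ := by
  have hU : S_UFD := Pool.Agent.Y165.CL.ufd
  have hS : S_SEP := Pool.Agent.Y718.CL.Sep.sep
  have h0 : S_EX0 := Pool.Agent.Y944.CL.ex0 Pool.Agent.Y151.CL.loc'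
  have h1 : S_EX1 := Pool.Agent.Y944.CL.ex1 Pool.Agent.Y151.CL.loc'
  have hM : S_SMT := Pool.Agent.Y362.CL.smt
  intro K _ _ n hn F hF hsm
  have hd : ∀ e z : Fin (n + 1) → K, (rst F z e).natDegree ≤ 4 := fun e z =>
    (Pool.Agent.Y718.SF.lg_natDegree F z e).trans hF.totalDegree_le
  -- the embeddings
  let φ : ∀ (p : ℕ) [Fact p.Prime], ℚ_[p] →+* ℂ := fun p _ => (Pool.Agent.Y447.CL.emb p).some
  have hsp : ∀ (p : ℕ) [Fact p.Prime] (σ : K →+* ℚ_[p]),
      Pool.Agent.Y718.SF.Smooth (map (φ p) (map σ F)) := by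
    intro p _ σ
    rw [MvPolynomial.map_map]
    exact hM K (n + 1) F hsm _
  have hex : ∀ (p : ℕ) [Fact p.Prime] (σ : K →+* ℚ_[p]), ∃ E : Set (Fin (n + 1) → ℚ_[p]),
      E.Finite ∧ ∀ x : Fin (n + 1) → ℚ_[p], eval x (map σ F) ≠ 0 → Bad (map σ F) x →
        ∃ e ∈ E, ∃ c : ℚ_[p], x = c • e := fun p _ σ =>
    bad_set h0 h1 (φ p) hn (hF.map σ) (hsp p σ)
  choose E hE1 hE2 using hex
  refine ⟨E, fun p _ σ => hE1 p σ, ?_⟩
  intro ι _ _ p _ hinj σ
  -- the local statement
  have hloc : ∀ (i : ι) (T : (Fin (n + 1) → ℚ_[p i]) × ℚ_[p i]), OnCover (map (σ i) F) T →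
      T.2 ≠ 0 → (∀ e ∈ E (p i) (σ i), ∀ c : ℚ_[p i], T.1 ≠ c • e) →
      ∃ e, IOt (th (map (σ i) F) e T.1 T.2) := by
    intro i T hT hw hb
    refine loc_io hU Pool.Agent.Y447.CL.bai Pool.Agent.Y447.CL.lin hS (φ (p i)) (by omega)
      (hF.map _) (hsp (p i) (σ i)) hT hw fun hbad => ?_
    obtain ⟨e, he, c, hc⟩ := hE2 (p i) (σ i) T.1 (by
      rw [← (show T.2 ^ 2 = _ from hT)]
      exact pow_ne_zero 2 hw) hbad
    exact hb e he c hc
  refine ⟨fun T hT hc => ?_, fun τ T hT hw hc => ?_⟩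
  · have hon := on_of_closure hT
    exact fill_p σ hT (int_p hinj σ hd hon (fun i => (hc i).1) fun i =>
      hloc i (T i) (hon i) (hc i).1 (hc i).2)
  · obtain ⟨hon1, hon2⟩ := on_of_closureR hT
    let x : ∀ v : Option ι, Fin (n + 1) → Lv p v := fun v =>
      match v with
      | none => T.1.1
      | some i => (T.2 i).1
    let y : ∀ v : Option ι, Lv p v := fun v =>
      match v with
      | none => T.1.2
      | some i => (T.2 i).2
    refine fill_r σ τ hT (x := x) (y := y) rfl rfl (fun _ => rfl) (fun _ => rfl) ?_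
    refine int_r hinj σ τ hd ?_ ?_ ?_ ?_
    · rintro (_ | i)
      · exact hon1
      · exact hon2 i
    · rintro (_ | i)
      · exact hw
      · exact (hc i).1
    · refine exists_Tq hS Complex.ofRealHom (by omega) (hF.map τ) ?_ ?_
      · rw [MvPolynomial.map_map]
        exact hM K (n + 1) F hsm _
      · have h2 : T.1.2 ^ 2 = eval T.1.1 (map τ F) := hon1
        change eval T.1.1 (map τ F) ≠ 0
        rw [← h2]
        exact pow_ne_zero 2 hw
    · exact fun i => hloc i (T.2 i) (hon2 i) (hc i).1 (hc i).2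

end Pool.Agent.Results.MP_12adaf_nt.OpenClosure
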