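import Pool.Agent.Y718.CL.Prod
import Pool.Agent.Y718.CL.Sep
import Pool.Agent.Y151.CL.Fnt
import Pool.Agent.Y165.CL.Ufd
import Pool.Agent.Y362.CL.Smt
import Pool.Agent.Y447.CL.Small
import Pool.Agent.Y944.CL.Ex

/-!
# The closure of the rational points of double covers of products of projective spaces is open

`K` is a field of characteristic zero, for example a number field, and `X` is the double cover
`w² = f(x₁, …, x_r)` of `ℙ^{n₁} × … × ℙ^{n_r}`, `r ≥ 2`, branched along a divisor of multidegree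
`(d₁, …, d_r)`, where `d_i = 2`, or `d_i = 4` and `n_i ≥ 2`. If `X` is smooth and all `n_i ≥ 1`,
then it is a Fano variety, hence rationally connected. Examples are the conic bundles over `ℙ²` and
del Pezzo fibrations over `ℙ¹` `w² = f(x, y)`, `x ∈ ℙ¹`, `y ∈ ℙ²`, of bidegree `(2, 4)`, and the
fourfolds `w² = f(x, y)`, `x, y ∈ ℙ²`, of bidegree `(4, 4)`.

For a point `T` of `X` and a factor `i` let `f_{T,i}` be the form of degree `d_i` in the variables
of the `i`-th factor, which one gets by inserting the other coordinates of `T` in `f`.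

We consider finite nonempty sets of `p`-adic places of degree one (embeddings of `K` into `ℚ_p`)
over different primes `p`, with or without a real place; for `K = ℚ` these are all the finite sets
of places which contain a finite place.

**Theorem.** For every smooth quartic form `G` over `ℚ_p` in `m + 1 ≥ 3` variables there is a finite
set `E(G)` of points of `ℙᵐ(ℚ_p)`, such that for every such `X` and every such set of places the
closure of `X(K)` in the product of the `X(K_v)` is a neighbourhood of each of its points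
`T = (T_v)` with the following properties: no `T_v` lies on the branch divisor, for `d_i = 4` the
quartic forms `f_{T_v,i}` are smooth, and, for the `p`-adic places `v`, the `i`-th component of
`T_v` does not belong to `E(f_{T_v,i})`.

(In the formal statement we work with the coordinates `(x, w)`, that is with the cone over `X`.)
-/

set_option autoImplicit false

namespace Pool.Agent.Results.MP_12adaf_nt.ProductsOpenClosure

open MvPolynomial Pool.Agent.Y720.MZ

/-- The point `(x, w)` lies on the double cover `w² = f(x)`. -/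
def OnCover {F : Type} [Field F] {α : Type} (f : MvPolynomial α F) (P : (α → F) × F) : Prop :=
  P.2 ^ 2 = eval P.1 f

/-- The image of a point under an embedding of fields. -/
def image {K F : Type} [Field K] [Field F] (φ : K →+* F) {α : Type} (P : (α → K) × K) :
    (α → F) × F :=
  (fun a => φ (P.1 a), φ P.2)

/-- The closure of the `K`-points in the product of the sets of the `ℚ_[p v]`-points. -/
def Closure {K : Type} [Field K] {α : Type} [Fintype α] (f : MvPolynomial α K) {ι : Type}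
    {p : ι → ℕ} [∀ v, Fact (p v).Prime] (σ : ∀ v, K →+* ℚ_[p v]) :
    Set (∀ v, (α → ℚ_[p v]) × ℚ_[p v]) :=
  closure {S | ∃ P, OnCover f P ∧ S = fun v => image (σ v) P}

/-- The closure of the `K`-points in the product of the set of the real points and of the sets of
the `ℚ_[p v]`-points. -/
def ClosureReal {K : Type} [Field K] {α : Type} [Fintype α] (f : MvPolynomial α K) {ι : Type}
    {p : ι → ℕ} [∀ v, Fact (p v).Prime] (σ : ∀ v, K →+* ℚ_[p v]) (τ : K →+* ℝ) :
    Set (((α → ℝ) × ℝ) × ∀ v, (α → ℚ_[p v]) × ℚ_[p v]) :=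
  closure {S | ∃ P, OnCover f P ∧ S = (image τ P, fun v => image (σ v) P)}

/-- The variables `x_{i,j}`, `0 ≤ j ≤ n_i`, of the `r` factors `ℙ^{n_i}`. -/
abbrev Vars {r : ℕ} (n : Fin r → ℕ) : Type := (i : Fin r) × Fin (n i + 1)

/-- The polynomial is a form of degree `d i` in the variables of the `i`-th factor. -/
def MultiHomogeneous {r : ℕ} {n : Fin r → ℕ} (d : Fin r → ℕ) {F : Type} [Field F]
    (f : MvPolynomial (Vars n) F) : Prop :=
  ∀ m ∈ f.support, ∀ i, ∑ j, m ⟨i, j⟩ = d i

/-- The form in the variables of the `i`-th factor, which one gets by inserting the coordinates of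
the point `x` for the other variables. -/
noncomputable def restriction {r : ℕ} {n : Fin r → ℕ} {F : Type} [Field F]
    (f : MvPolynomial (Vars n) F) (x : Vars n → F) (i : Fin r) :
    MvPolynomial (Fin (n i + 1)) F :=
  aeval (fun a : Vars n => Function.update
    (fun (k : Fin r) (j : Fin (n k + 1)) => (C (x ⟨k, j⟩) : MvPolynomial (Fin (n i + 1)) F)) i
    (fun j => (X j : MvPolynomial (Fin (n i + 1)) F)) a.1 a.2) f

/-- The hypersurface `G = 0` is smooth. -/
def SmoothForm {F : Type} [Field F] {m : ℕ} (G : MvPolynomial (Fin m) F) : Prop :=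
  ∀ y : Fin m → AlgebraicClosure F, (∀ j, aeval y (pderiv j G) = 0) → y = 0

section aux

variable {K : Type} [Field K] [CharZero K] {α : Type} [Fintype α] {f : MvPolynomial α K}

omit [CharZero K] in
lemma dist_image {F : Type} [NormedField F] (φ : K →+* F) (P : (α → K) × K)
    (T : (α → F) × F) {η : ℝ} (hη : 0 < η) : dist T (image φ P) < η ↔
      (∀ j, ‖φ (P.1 j) - T.1 j‖ < η) ∧ ‖φ P.2 - T.2‖ < η := by
  rw [dist_comm, Prod.dist_eq, max_lt_iff, dist_pi_lt_iff hη]
  simp only [dist_eq_norm, image]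

variable {ι : Type} [Finite ι] {p : ι → ℕ} [hp : ∀ i, Fact (p i).Prime]

omit [CharZero K] in
lemma fill_p (σ : ∀ i, K →+* ℚ_[p i]) {T : ∀ i, (α → ℚ_[p i]) × ℚ_[p i]}
    (hcl : T ∈ Closure f σ) (hI : IntL σ f (fun i => (T i).1) (fun i => (T i).2)) :
    ∃ U ∈ nhds T, ∀ S ∈ U, (∀ i, OnCover (map (σ i) f) (S i)) → S ∈ Closure f σ := by
  have : Fintype ι := Fintype.ofFinite ι
  obtain ⟨ε, hε, hint⟩ := hI
  obtain ⟨_, ⟨P, hP, rfl⟩, h2⟩ := Metric.mem_closure_iff.1 hcl ε hε
  rw [dist_pi_lt_iff hε] at h2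
  refine ⟨Metric.ball T ε, Metric.ball_mem_nhds T hε, fun S hS hSX => ?_⟩
  rw [Metric.mem_ball, dist_pi_lt_iff hε] at hS
  rw [Closure, Metric.mem_closure_iff]
  intro η hη
  obtain ⟨z, w, k1, k2⟩ := hint P.1 P.2 hP (fun i => (dist_image (σ i) P (T i) hε).1 (h2 i))
    (fun i => (S i).1) (fun i => (S i).2) hSX (fun i => by
      have h3 := hS i
      rw [Prod.dist_eq, max_lt_iff, dist_pi_lt_iff hε] at h3
      simp only [dist_eq_norm] at h3
      exact h3) η hη
  refine ⟨_, ⟨(z, w), k1, rfl⟩, ?_⟩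
  rw [dist_pi_lt_iff hη]
  exact fun i => (dist_image (σ i) (z, w) (S i) hη).2 (k2 i)

omit [CharZero K] in
lemma fill_r (σ : ∀ i, K →+* ℚ_[p i]) (τ : K →+* ℝ)
    {T : ((α → ℝ) × ℝ) × ∀ i, (α → ℚ_[p i]) × ℚ_[p i]}
    (hcl : T ∈ ClosureReal f σ τ) {x : ∀ v : Option ι, α → Lv p v} {y : ∀ v : Option ι, Lv p v}
    (hx0 : x none = T.1.1) (hy0 : y none = T.1.2) (hx : ∀ i, x (some i) = (T.2 i).1)
    (hy : ∀ i, y (some i) = (T.2 i).2)
    (hI : IntL (sv σ τ) f x y) :
    ∃ U ∈ nhds T, ∀ S ∈ U, OnCover (map τ f) S.1 → (∀ i, OnCover (map (σ i) f) (S.2 i)) →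
      S ∈ ClosureReal f σ τ := by
  have : Fintype ι := Fintype.ofFinite ι
  obtain ⟨ε, hε, hint⟩ := hI
  obtain ⟨_, ⟨P, hP, rfl⟩, h2⟩ := Metric.mem_closure_iff.1 hcl ε hε
  rw [Prod.dist_eq, max_lt_iff, dist_pi_lt_iff hε] at h2
  refine ⟨Metric.ball T ε, Metric.ball_mem_nhds T hε, fun S hS hSr hSX => ?_⟩
  rw [Metric.mem_ball, Prod.dist_eq, max_lt_iff, dist_pi_lt_iff hε] at hS
  rw [ClosureReal, Metric.mem_closure_iff]
  intro η hη
  let x' : ∀ v : Option ι, α → Lv p v := fun v =>
    match v with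
    | none => S.1.1
    | some i => (S.2 i).1
  let y' : ∀ v : Option ι, Lv p v := fun v =>
    match v with
    | none => S.1.2
    | some i => (S.2 i).2
  obtain ⟨z, w, k1, k2⟩ := hint P.1 P.2 hP
    (by
      rintro (_ | i)
      · rw [hx0, hy0]
        exact (dist_image τ P T.1 hε).1 h2.1
      · rw [hx, hy]
        exact (dist_image (σ i) P (T.2 i) hε).1 (h2.2 i))
    x' y'
    (by
      rintro (_ | i)
      · exact hSr
      · exact hSX i)
    (by
      rintro (_ | i)
      · have h3 := hS.1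
        rw [Prod.dist_eq, max_lt_iff, dist_pi_lt_iff hε] at h3
        simp only [dist_eq_norm] at h3
        rw [hx0, hy0]
        exact h3
      · have h3 := hS.2 i
        rw [Prod.dist_eq, max_lt_iff, dist_pi_lt_iff hε] at h3
        simp only [dist_eq_norm] at h3
        rw [hx, hy]
        exact h3) η hη
  refine ⟨_, ⟨(z, w), k1, rfl⟩, ?_⟩
  rw [Prod.dist_eq, max_lt_iff, dist_pi_lt_iff hη]
  exact ⟨(dist_image τ (z, w) S.1 hη).2 (k2 none),
    fun i => (dist_image (σ i) (z, w) (S.2 i) hη).2 (k2 (some i))⟩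

end aux

section closed

variable {K : Type} [Field K] {α : Type} [Fintype α] {f : MvPolynomial α K} {ι : Type}
  {p : ι → ℕ} [∀ i, Fact (p i).Prime]

omit [Fintype α] in
lemma onCover_image {F : Type} [Field F] (φ : K →+* F) {P : (α → K) × K} (h : OnCover f P) :
    OnCover (map φ f) (image φ P) := by
  have k1 : eval (image φ P).1 (map φ f) = φ (eval P.1 f) := by
    rw [eval_map, image]
    exact (eval₂_comp_left φ (RingHom.id K) P.1 f).symm ▸ rfl
  unfold OnCover at *
  rw [k1, ← h, map_pow]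
  rfl

lemma isClosed_onCover {F : Type} [NormedField F] (g : MvPolynomial α F) :
    IsClosed {P : (α → F) × F | OnCover g P} :=
  isClosed_eq (by fun_prop) ((MvPolynomial.continuous_eval g).comp continuous_fst)

lemma on_of_closure {σ : ∀ i, K →+* ℚ_[p i]} {T : ∀ i, (α → ℚ_[p i]) × ℚ_[p i]}
    (hT : T ∈ Closure f σ) (i : ι) : OnCover (map (σ i) f) (T i) := by
  have h1 : IsClosed {T : ∀ i, (α → ℚ_[p i]) × ℚ_[p i] | OnCover (map (σ i) f) (T i)} :=
    (isClosed_onCover (map (σ i) f)).preimage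
      (f := fun T : ∀ i, (α → ℚ_[p i]) × ℚ_[p i] => T i) (continuous_apply i)
  refine closure_minimal ?_ h1 hT
  rintro _ ⟨P, hP, rfl⟩
  exact onCover_image (σ i) hP

lemma on_of_closureR {σ : ∀ i, K →+* ℚ_[p i]} {τ : K →+* ℝ}
    {T : ((α → ℝ) × ℝ) × ∀ i, (α → ℚ_[p i]) × ℚ_[p i]}
    (hT : T ∈ ClosureReal f σ τ) : OnCover (map τ f) T.1 ∧ ∀ i, OnCover (map (σ i) f) (T.2 i) := by
  constructor
  · have h1 : IsClosed {T : ((α → ℝ) × ℝ) × ∀ i, (α → ℚ_[p i]) × ℚ_[p i] |
        OnCover (map τ f) T.1} := (isClosed_onCover (map τ f)).preimage continuous_fst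
    refine closure_minimal ?_ h1 hT
    rintro _ ⟨P, hP, rfl⟩
    exact onCover_image τ hP
  · intro i
    have h1 : IsClosed {T : ((α → ℝ) × ℝ) × ∀ i, (α → ℚ_[p i]) × ℚ_[p i] |
        OnCover (map (σ i) f) (T.2 i)} :=
      (isClosed_onCover (map (σ i) f)).preimage
        (f := fun T : ((α → ℝ) × ℝ) × ∀ i, (α → ℚ_[p i]) × ℚ_[p i] => T.2 i)
        ((continuous_apply i).comp continuous_snd)
    refine closure_minimal ?_ h1 hT
    rintro _ ⟨P, hP, rfl⟩
    exact onCover_image (σ i) hP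

end closed

open Pool.Agent.Y718.CL in
/-- **The closure of the rational points is open.** -/
theorem result :
    -- finite sets of points of the projective spaces over the `ℚ_p`
    ∃ E : ∀ (p : ℕ) [Fact p.Prime] (m : ℕ), MvPolynomial (Fin (m + 1)) ℚ_[p] →
        Set (Fin (m + 1) → ℚ_[p]),
      (∀ (p : ℕ) [Fact p.Prime] (m : ℕ) (G : MvPolynomial (Fin (m + 1)) ℚ_[p]),
        (E p m G).Finite) ∧
      -- double covers of products of at least two projective spaces
      ∀ (K : Type) [Field K] [CharZero K] (r : ℕ), 2 ≤ r → ∀ n d : Fin r → ℕ,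
        (∀ i, d i = 2 ∨ d i = 4 ∧ 2 ≤ n i) → ∀ f : MvPolynomial (Vars n) K,
        MultiHomogeneous d f →
        -- finite sets of `p`-adic places
        ∀ (ι : Type) [Finite ι] [Nonempty ι] (p : ι → ℕ) [∀ v, Fact (p v).Prime],
          Function.Injective p → ∀ σ : ∀ v, K →+* ℚ_[p v],
            (∀ T ∈ Closure f σ, (∀ v, (T v).2 ≠ 0) →
              (∀ i, d i = 4 → ∀ v, SmoothForm (restriction (map (σ v) f) (T v).1 i) ∧
                ∀ e ∈ E (p v) (n i) (restriction (map (σ v) f) (T v).1 i), ∀ c : ℚ_[p v],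
                  (fun j => (T v).1 ⟨i, j⟩) ≠ c • e) →
              ∃ U ∈ nhds T, ∀ S ∈ U, (∀ v, OnCover (map (σ v) f) (S v)) → S ∈ Closure f σ) ∧
            -- with a real place
            ∀ (τ : K →+* ℝ), ∀ T ∈ ClosureReal f σ τ, T.1.2 ≠ 0 → (∀ v, (T.2 v).2 ≠ 0) →
              (∀ i, d i = 4 → SmoothForm (restriction (map τ f) T.1.1 i)) →
              (∀ i, d i = 4 → ∀ v, SmoothForm (restriction (map (σ v) f) (T.2 v).1 i) ∧
                ∀ e ∈ E (p v) (n i) (restriction (map (σ v) f) (T.2 v).1 i), ∀ c : ℚ_[p v],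
                  (fun j => (T.2 v).1 ⟨i, j⟩) ≠ c • e) →
              ∃ U ∈ nhds T, ∀ S ∈ U, OnCover (map τ f) S.1 →
                (∀ v, OnCover (map (σ v) f) (S.2 v)) → S ∈ ClosureReal f σ τ := by
  classical
  have hU : S_UFD := Pool.Agent.Y165.CL.ufd
  have hS : S_SEP := Pool.Agent.Y718.CL.Sep.sep
  have h0 : S_EX0 := Pool.Agent.Y944.CL.ex0 Pool.Agent.Y151.CL.loc'
  have h1 : S_EX1 := Pool.Agent.Y944.CL.ex1 Pool.Agent.Y151.CL.loc'
  have hM : S_SMT := Pool.Agent.Y362.CL.smt
  -- the embeddings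
  let φ : ∀ (p : ℕ) [Fact p.Prime], ℚ_[p] →+* ℂ := fun p _ => (Pool.Agent.Y447.CL.emb p).some
  have hex : ∀ (p : ℕ) [Fact p.Prime] (m : ℕ) (G : MvPolynomial (Fin (m + 1)) ℚ_[p]),
      ∃ E : Set (Fin (m + 1) → ℚ_[p]), E.Finite ∧ (2 ≤ m → G.IsHomogeneous 4 → SmoothForm G →
        ∀ x : Fin (m + 1) → ℚ_[p], eval x G ≠ 0 → Bad G x → ∃ e ∈ E, ∃ c : ℚ_[p], x = c • e) := by
    intro p _ m G
    by_cases h : 2 ≤ m ∧ G.IsHomogeneous 4 ∧ SmoothForm G
    · obtain ⟨E, hE1, hE2⟩ := bad_set h0 h1 (φ p) h.1 h.2.1 (hM ℚ_[p] (m + 1) G h.2.2 (φ p))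
      exact ⟨E, hE1, fun _ _ _ => hE2⟩
    · exact ⟨∅, Set.finite_empty, fun a b c => absurd ⟨a, b, c⟩ h⟩
  choose E hE1 hE2 using hex
  refine ⟨E, fun p _ m G => hE1 p m G, ?_⟩
  intro K _ _ r _ n d hd f hf ι _ _ p _ hinj σ
  have hd' : ∀ i, d i = 2 ∨ d i = 4 := fun i => (hd i).imp id fun h => h.1
  have hn : ∀ i, d i = 4 → 2 ≤ n i := by
    intro i h4
    rcases hd i with h | h
    · omega
    · exact h.2
  -- the local statement
  have hloc : ∀ (v : ι) (T : (Vars n → ℚ_[p v]) × ℚ_[p v]), OnCover (map (σ v) f) T →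
      T.2 ≠ 0 → ∀ i, d i = 4 → SmoothForm (restriction (map (σ v) f) T.1 i) →
      (∀ e ∈ E (p v) (n i) (restriction (map (σ v) f) T.1 i), ∀ c : ℚ_[p v],
        (fun j => T.1 ⟨i, j⟩) ≠ c • e) →
      ∃ e, IOt (th (Gi (map (σ v) f) T.1 i) e (fun j => T.1 ⟨i, j⟩) T.2) := by
    intro v T hT hw i h4 hsm hb
    have hhom : (Gi (map (σ v) f) T.1 i).IsHomogeneous 4 := by
      have := Gi_hom (MH.map (show MH d f from hf) (σ v)) T.1 i
      rwa [h4] at this
    have hon : onX (Gi (map (σ v) f) T.1 i) (fun j => T.1 ⟨i, j⟩) T.2 := onX_Gi hT i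
    refine loc_io hU Pool.Agent.Y447.CL.bai Pool.Agent.Y447.CL.lin hS (φ (p v))
      (by have := hn i h4; omega) hhom (hM ℚ_[p v] (n i + 1) _ hsm (φ (p v))) hon hw fun hbad => ?_
    obtain ⟨e, he, c, hc⟩ := hE2 (p v) (n i) (restriction (map (σ v) f) T.1 i) (hn i h4) hhom hsm
      (fun j => T.1 ⟨i, j⟩) (by
        have h5 : T.2 ^ 2 = eval (fun j => T.1 ⟨i, j⟩) (restriction (map (σ v) f) T.1 i) := hon
        rw [← h5]
        exact pow_ne_zero 2 hw) hbad
    exact hb e he c hc
  refine ⟨fun T hT hw hc => ?_, fun τ T hT hw hw' hr hc => ?_⟩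
  · have hon := on_of_closure hT
    exact fill_p σ hT (prod_p hinj σ (show MH d f from hf) hd' hon hw fun i h4 v =>
      hloc v (T v) (hon v) (hw v) i h4 (hc i h4 v).1 (hc i h4 v).2)
  · obtain ⟨hon1, hon2⟩ := on_of_closureR hT
    let x : ∀ v : Option ι, Vars n → Lv p v := fun v =>
      match v with
      | none => T.1.1
      | some i => (T.2 i).1
    let y : ∀ v : Option ι, Lv p v := fun v =>
      match v with
      | none => T.1.2
      | some i => (T.2 i).2
    refine fill_r σ τ hT (x := x) (y := y) rfl rfl (fun _ => rfl) (fun _ => rfl) ?_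
    refine prod_r hinj σ τ (show MH d f from hf) hd' ?_ ?_ ?_ ?_
    · rintro (_ | i)
      · exact hon1
      · exact hon2 i
    · rintro (_ | i)
      · exact hw
      · exact hw' i
    · intro i h4
      have hhom : (Gi (map τ f) T.1.1 i).IsHomogeneous 4 := by
        have := Gi_hom (MH.map (show MH d f from hf) τ) T.1.1 i
        rwa [h4] at this
      have hon : onX (Gi (map τ f) T.1.1 i) (fun j => T.1.1 ⟨i, j⟩) T.1.2 := onX_Gi hon1 i
      refine exists_Tq hS Complex.ofRealHom (by have := hn i h4; omega) hhom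
        (hM ℝ (n i + 1) _ (hr i h4) Complex.ofRealHom) ?_
      have h5 : T.1.2 ^ 2 = eval (fun j => T.1.1 ⟨i, j⟩) (Gi (map τ f) T.1.1 i) := hon
      change eval (fun j => T.1.1 ⟨i, j⟩) (Gi (map τ f) T.1.1 i) ≠ 0
      rw [← h5]
      exact pow_ne_zero 2 hw
    · exact fun i h4 v => hloc v (T.2 v) (hon2 v) (hw' v) i h4 (hc i h4 v).1 (hc i h4 v).2

end Pool.Agent.Results.MP_12adaf_nt.ProductsOpenClosure
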