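import Pool.Agent.Y716.D.Main

/-!
# Weak approximation for 100% of the Fano complete intersections over the rational numbers

Let `d 1, …, d s ≥ 2` with `d 1 + ⋯ + d s ≤ n`, so that the smooth complete intersections of
hypersurfaces of degrees `d 1, …, d s` in `ℙⁿ` are Fano varieties, and let `n ≥ 3` (this excludes
only the plane conics; cubic surfaces and del Pezzo surfaces of degree four are included). Among the
smooth complete intersections `f 1 = ⋯ = f s = 0`, with integral forms of these degrees with
coefficients bounded by `H`, which have points over the real numbers and over all the `p`-adic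
fields, a proportion tending to `1` as `H → ∞` satisfies weak approximation to precision `1 / m(H)`
at the real place and at all the primes up to `m(H)`, where `m(H) → ∞`. In particular 100% of them
have a rational point.
-/

set_option autoImplicit false

namespace Pool.Agent.Results.MP_12adaf_nt.RandomCompleteIntersections

/-- The systems of forms of degrees `d j` in `n + 1` variables whose coefficients are integers of
absolute value at most `H`. -/
def Systems {s : ℕ} (d : Fin s → ℕ) (n H : ℕ) : Set (Fin s → MvPolynomial (Fin (n + 1)) ℤ) :=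
  {f | ∀ j, (f j).IsHomogeneous (d j) ∧ ∀ m, |(f j).coeff m| ≤ (H : ℤ)}

/-- The forms `f 1, …, f s` define a smooth complete intersection in `ℙⁿ`: at every common zero over
a field of characteristic zero the Jacobian matrix has rank `s`, that is, no nontrivial linear
combination of the gradients of the forms vanishes there. -/
def Smooth {s n : ℕ} (f : Fin s → MvPolynomial (Fin (n + 1)) ℤ) : Prop :=
  ∀ (K : Type) [Field K] [CharZero K] (x : Fin (n + 1) → K) (l : Fin s → K), x ≠ 0 → l ≠ 0 →
    (∀ j, MvPolynomial.aeval x (f j) = 0) →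
    ∃ i, ∑ j, l j * MvPolynomial.aeval x (MvPolynomial.pderiv i (f j)) ≠ 0

/-- The intersection `f 1 = ⋯ = f s = 0` in `ℙⁿ` has points over the real numbers and over all the
`p`-adic fields. -/
def LocallySoluble {s n : ℕ} (f : Fin s → MvPolynomial (Fin (n + 1)) ℤ) : Prop :=
  (∃ x : Fin (n + 1) → ℝ, x ≠ 0 ∧ ∀ j, MvPolynomial.aeval x (f j) = 0) ∧
    ∀ (p : ℕ) [Fact p.Prime], ∃ x : Fin (n + 1) → ℚ_[p], x ≠ 0 ∧
      ∀ j, MvPolynomial.aeval x (f j) = 0

/-- Weak approximation for the intersection `f 1 = ⋯ = f s = 0` in `ℙⁿ`, to precision `1 / m` at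
the real place and at the primes up to `m`: for all real points `y` and `p`-adic points `z p` of the
intersection, one for each prime `p`, there is a rational point `x` of the intersection such that,
for suitable representatives of the point `x` of the projective space, the coordinates of `y - x`
are at most `‖y‖ / m` and the coordinates of `z p - x` are at most `‖z p‖ / m` for all the primes
`p ≤ m` (`‖y‖` and `‖z p‖` being the largest absolute value of a coordinate). -/
def WeakApproximation (m : ℕ) {s n : ℕ} (f : Fin s → MvPolynomial (Fin (n + 1)) ℤ) : Prop :=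
  ∀ (z : ∀ (p : ℕ) [Fact p.Prime], Fin (n + 1) → ℚ_[p]) (y : Fin (n + 1) → ℝ),
    (∀ (p : ℕ) [Fact p.Prime], z p ≠ 0 ∧ ∀ j, MvPolynomial.aeval (z p) (f j) = 0) → y ≠ 0 →
    (∀ j, MvPolynomial.aeval y (f j) = 0) →
    ∃ x : Fin (n + 1) → ℚ, x ≠ 0 ∧ (∀ j, MvPolynomial.aeval x (f j) = 0) ∧
      (∀ (p : ℕ) [Fact p.Prime], p ≤ m → ∃ c : ℚ_[p], c ≠ 0 ∧
        ∀ i, ‖z p i - c * (x i : ℚ_[p])‖ ≤ ‖z p‖ / m) ∧
      ∃ c : ℝ, c ≠ 0 ∧ ∀ i, |y i - c * (x i : ℝ)| ≤ ‖y‖ / m

/-- For degrees `d j ≥ 2` with `∑ d j ≤ n` and for `n ≥ 3` there is a function `m` tending to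
infinity such that 100% of the everywhere locally soluble smooth complete intersections of
hypersurfaces of degrees `d j` in `ℙⁿ` of height at most `H` satisfy weak approximation to precision
`1 / m(H)` at the real place and at the primes up to `m(H)`. -/
theorem result (s n : ℕ) (d : Fin s → ℕ) (hs : 1 ≤ s) (hd : ∀ j, 2 ≤ d j) (hdn : ∑ j, d j ≤ n)
    (hn : 3 ≤ n) :
    ∃ m : ℕ → ℕ, Filter.Tendsto m Filter.atTop Filter.atTop ∧
      Filter.Tendsto (fun H : ℕ =>
        (({f | f ∈ Systems d n H ∧ Smooth f ∧ LocallySoluble f ∧ WeakApproximation (m H) f} :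
          Set _).ncard : ℝ) /
        (({f | f ∈ Systems d n H ∧ Smooth f ∧ LocallySoluble f} : Set _).ncard : ℝ))
      Filter.atTop (nhds 1) := by
  obtain ⟨e, he⟩ : ∃ e : Fin s → ℕ, ∀ j, d j = e j + 2 :=
    ⟨fun j => d j - 2, fun j => by have := hd j; dsimp only; omega⟩
  obtain rfl : d = fun j => e j + 2 := funext he
  obtain ⟨h1, h2⟩ := Pool.Agent.Y716.D.dims hs hn hdn
  exact Pool.Agent.Y716.D.wa_smooth_all (Fin (n + 1)) hs h1 e h2

end Pool.Agent.Results.MP_12adaf_nt.RandomCompleteIntersections
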